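import Mathlib

/-!
# Curves of `p`-rank 0 and their families: definitions

A curve (smooth, projective, connected) over an algebraically closed field `k` is given by its function field `F`, its points are
the places.
-/

set_option autoImplicit false

namespace Pool.Agent.helper84.GC

noncomputable section

/-- `F` is a function field of one variable over `k`: finite over `k(x)` for some `x` transcendental over `k` -/
def IsFF (k F : Type) [Field k] [Field F] [Algebra k F] : Prop :=
  ∃ x : F, Transcendental k x ∧ FiniteDimensional (IntermediateField.adjoin k ({x} : Set F)) F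

/-- a place: a normalised discrete valuation `ord : F → ℤ`, trivial on `k` (the value at `0` is the junk value `0`) -/
structure Place (k F : Type) [Field k] [Field F] [Algebra k F] where
  ord : F → ℤ
  ord_zero : ord 0 = 0
  ord_mul : ∀ a b : F, a ≠ 0 → b ≠ 0 → ord (a * b) = ord a + ord b
  ord_add : ∀ a b : F, a ≠ 0 → b ≠ 0 → a + b ≠ 0 → min (ord a) (ord b) ≤ ord (a + b)
  ord_const : ∀ c : k, c ≠ 0 → ord (algebraMap k F c) = 0
  ord_unif : ∃ t : F, ord t = 1

/-- the Riemann-Roch space `L(D)` of a divisor `D` (the span of a set which is in fact a subspace) -/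
def RR {k F : Type} [Field k] [Field F] [Algebra k F] (D : Place k F →₀ ℤ) : Submodule k F :=
  Submodule.span k {f | f = 0 ∨ ∀ P : Place k F, -D P ≤ P.ord f}

/-- `g` is the genus of `F / k`: the maximum of `deg D + 1 - dim L(D)` -/
def IsGenus (k F : Type) [Field k] [Field F] [Algebra k F] (g : ℕ) : Prop :=
  IsGreatest (Set.range fun D : Place k F →₀ ℤ => (D.sum fun _ n => n) + 1 - (Module.finrank k (RR D) : ℤ)) g

/-- The `p`-rank of the curve is 0, that is `Jac(C)[p](k) = 0`: if all orders of `f` are divisible by `p`, that is `(f) = p D`, then `D` is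
principal, `D = (h)`, `f = c h ^ p`; and constants are `p`-th powers. -/
def PRankZero (p : ℕ) (k F : Type) [Field k] [Field F] [Algebra k F] : Prop :=
  ∀ f : F, f ≠ 0 → (∀ P : Place k F, (p : ℤ) ∣ P.ord f) → ∃ h : F, f = h ^ p

/-- the differential `ω` is regular at `P`: `ω = f dt`, `t` a uniformiser at `P` and `f` regular at `P` -/
def RegAt {k F : Type} [Field k] [Field F] [Algebra k F] (P : Place k F)
    (ω : KaehlerDifferential k F) : Prop :=
  ∃ t f : F, P.ord t = 1 ∧ 0 ≤ P.ord f ∧ ω = f • KaehlerDifferential.D k F t

/-- the `a`-number: the dimension of the space of the exact regular differentials, the kernel of the Cartier operator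
on `H⁰(C, Ω)`; it is `dim Hom(α_p, Jac(C))`. (The span of a set which is in fact a subspace.) -/
def aNumber (k F : Type) [Field k] [Field F] [Algebra k F] : ℕ :=
  Module.finrank k (Submodule.span k {ω : KaehlerDifferential k F |
    (∀ P : Place k F, RegAt P ω) ∧ ∃ h : F, ω = KaehlerDifferential.D k F h})

/-- `E' / L` is the base change (constant field extension) of `F / k` by the field embedding `σ : k → L`, with the inclusion
`i : F → E'`: it is generated by `L` and `i(F)`, and these are linearly disjoint over `k`. -/
def IsBaseChange (k L F E' : Type) [Field k] [Field L] [Field F] [Field E'] [Algebra k F]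
    [Algebra L E'] (σ : k →+* L) (i : F →+* E') : Prop :=
  (∀ c : k, i (algebraMap k F c) = algebraMap L E' (σ c)) ∧
  (∀ x : E', ∃ (n : ℕ) (a b : Fin n → L) (u v : Fin n → F),
    ∑ j, algebraMap L E' (b j) * i (v j) ≠ 0 ∧
    x * (∑ j, algebraMap L E' (b j) * i (v j)) = ∑ j, algebraMap L E' (a j) * i (u j)) ∧
  ∀ (n : ℕ) (v : Fin n → F), LinearIndependent k v → LinearIndependent L (fun j => i (v j))

/-- `E / k((t))` has good reduction `F₀ / k` (Deuring): there is a valuation ring `O` of `E` with `O ∩ k((t)) = k[[t]]`, with maximal
ideal `t O` and with residue field `F₀`; `π` is the residue map. (The genus of `F₀` will be that of `E`.) -/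
def GoodReduction (k F₀ E : Type) [Field k] [Field F₀] [Algebra k F₀] [Field E]
    [Algebra (LaurentSeries k) E] : Prop :=
  ∃ (O : ValuationSubring E) (π : O →+* F₀), Function.Surjective π ∧
    (∀ x : O, π x = 0 ↔ ∃ y : O, (x : E) =
      algebraMap (LaurentSeries k) E (algebraMap (PowerSeries k) (LaurentSeries k) PowerSeries.X) * y) ∧
    (∀ c : LaurentSeries k, algebraMap (LaurentSeries k) E c ∈ O ↔
      c ∈ Set.range (algebraMap (PowerSeries k) (LaurentSeries k))) ∧
    ∀ (c : PowerSeries k) (x : O),
      (x : E) = algebraMap (LaurentSeries k) E (algebraMap (PowerSeries k) (LaurentSeries k) c) →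
      π x = algebraMap k F₀ (PowerSeries.constantCoeff c)

/-- A family over `k[[t]]` with special fibre `F₀ / k`: a curve `E / k((t))` with good reduction `F₀`, with its geometric
generic fibre `E'` (over the algebraic closure of `k((t))`, `j : E → E'`), which has genus `g` and `p`-rank 0. -/
def IsFamily (p : ℕ) (k F₀ : Type) [Field k] [Field F₀] [Algebra k F₀] (g : ℕ)
    (E E' : Type) [Field E] [Algebra (LaurentSeries k) E] [Field E']
    [Algebra (AlgebraicClosure (LaurentSeries k)) E'] (j : E →+* E') : Prop :=
  IsFF (LaurentSeries k) E ∧ GoodReduction k F₀ E ∧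
  IsBaseChange (LaurentSeries k) (AlgebraicClosure (LaurentSeries k)) E E'
    (algebraMap (LaurentSeries k) (AlgebraicClosure (LaurentSeries k))) j ∧
  IsFF (AlgebraicClosure (LaurentSeries k)) E' ∧
  IsGenus (AlgebraicClosure (LaurentSeries k)) E' g ∧
  PRankZero p (AlgebraicClosure (LaurentSeries k)) E'

/-- `F₀ / k`, a curve of genus `g` and `p`-rank 0, is generic: it has no proper generisation of `p`-rank 0, that is, the geometric generic
fibre `E'` of every family as in `IsFamily` is a base change of `F₀`. -/
def IsGeneric (p : ℕ) (k F₀ : Type) [Field k] [Field F₀] [Algebra k F₀] (g : ℕ) : Prop :=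
  ∀ (E : Type) [Field E] [Algebra (LaurentSeries k) E] (E' : Type) [Field E']
    [Algebra (AlgebraicClosure (LaurentSeries k)) E'] (j : E →+* E'), IsFamily p k F₀ g E E' j →
    ∃ (σ : k →+* AlgebraicClosure (LaurentSeries k)) (i : F₀ →+* E'),
      IsBaseChange k (AlgebraicClosure (LaurentSeries k)) F₀ E' σ i

end

end Pool.Agent.helper84.GC
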