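import Pool.Agent.helper48.AN.SpecF
import Pool.Agent.helper63.AN.FK
import Pool.Agent.helper97.AN.ZD

/-!
# The `a`-number and constant field extensions
-/

set_option autoImplicit false

namespace Pool.Agent.helper84.AN

open Pool.Agent.helper53.AU
open _root_.AN

noncomputable section

/-- `E' / L` is the constant field extension of `F / k` along the embedding `σ : k → L` (`i : F → E'` is the inclusion):
generated by `L` and `F`, and linearly disjoint -/
def ConstExtAlong (k L F E' : Type) [Field k] [Field L] [Field F] [Field E'] [Algebra k F]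
    [Algebra L E'] (σ : k →+* L) (i : F →+* E') : Prop :=
  (∀ c : k, i (algebraMap k F c) = algebraMap L E' (σ c)) ∧
  (∀ x : E', ∃ (n : ℕ) (a b : Fin n → L) (u v : Fin n → F),
    ∑ j, algebraMap L E' (b j) * i (v j) ≠ 0 ∧
    x * (∑ j, algebraMap L E' (b j) * i (v j)) = ∑ j, algebraMap L E' (a j) * i (u j)) ∧
  ∀ (n : ℕ) (v : Fin n → F), LinearIndependent k v → LinearIndependent L (fun j => i (v j))

variable {k L F E' : Type} [Field k] [IsAlgClosed k] [Field L] [IsAlgClosed L] [Field F]
  [Algebra k F] [Field E'] [Algebra L E']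

theorem der_ext (hF : IsFF k F) (σ : k →+* L) (i : F →+* E')
    (hσ : ConstExtAlong k L F E' σ i) (D₀ : Derivation k F F) (hD₀ : D₀ ≠ 0)
    (D₁ : Derivation L E' E') (hD₁ : D₁ ≠ 0) :
    ∃ c : E', c ≠ 0 ∧ ∀ f : F, D₁ (i f) = c * i (D₀ f) := by
  obtain ⟨e₀, he₀, -⟩ := FK k F hF D₀ hD₀
  letI : Algebra F E' := i.toAlgebra
  letI : Algebra k E' := ((algebraMap L E').comp σ).toAlgebra
  have hsm : ∀ (f : F) (y : E'), f • y = i f * y := fun f y => Algebra.smul_def f y
  have hsk : ∀ (c : k) (y : E'), c • y = algebraMap L E' (σ c) * y := fun c y => Algebra.smul_def c y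
  haveI : IsScalarTower k F E' := by
    refine ⟨fun c f y => ?_⟩
    rw [hsm, hsm, hsk, Algebra.smul_def, map_mul, hσ.1 c, mul_assoc]
  let δ₀ : F →ₗ[k] E' :=
    { toFun := fun f => D₁ (i f)
      map_add' := fun a b => by rw [map_add, map_add]
      map_smul' := fun c f => by
        rw [Algebra.smul_def, map_mul, hσ.1 c, ← Algebra.smul_def, D₁.map_smul, RingHom.id_apply, hsk,
          Algebra.smul_def] }
  let δ : Derivation k F E' := Derivation.mk' δ₀ (by
    intro a b
    show D₁ (i (a * b)) = a • D₁ (i b) + b • D₁ (i a)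
    rw [map_mul, D₁.leibniz, hsm, hsm, smul_eq_mul, smul_eq_mul])
  have hδ : ∀ f, δ f = D₁ (i f) := fun f => rfl
  have key : ∀ f, D₁ (i f) = δ.liftKaehlerDifferential (e₀.symm 1) * i (D₀ f) := by
    intro f
    have h1 : KaehlerDifferential.D k F f = D₀ f • e₀.symm 1 := by
      rw [← map_smul, smul_eq_mul, mul_one, ← he₀ f, LinearEquiv.symm_apply_apply]
    rw [← hδ f, ← δ.liftKaehlerDifferential_comp_D f, h1, map_smul, hsm, mul_comm]
  refine ⟨δ.liftKaehlerDifferential (e₀.symm 1), ?_, key⟩
  intro h0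
  apply hD₁
  have h2 : ∀ f, D₁ (i f) = 0 := fun f => by rw [key f, h0, zero_mul]
  have h3 : ∀ (n : ℕ) (a : Fin n → L) (u : Fin n → F),
      D₁ (∑ j, algebraMap L E' (a j) * i (u j)) = 0 := by
    intro n a u
    rw [map_sum]
    refine Finset.sum_eq_zero fun j _ => ?_
    rw [← Algebra.smul_def, D₁.map_smul, h2, smul_zero]
  ext x
  obtain ⟨n, a, b, u, v, hne, hx⟩ := hσ.2.1 x
  have h4 := congrArg D₁ hx
  rw [D₁.leibniz, h3, h3, smul_zero, zero_add, smul_eq_mul] at h4
  rcases mul_eq_zero.mp h4 with h5 | h5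
  · exact absurd h5 hne
  · exact h5

/-- the restriction of a place -/
theorem restrict (hF : IsFF k F) (σ : k →+* L) (i : F →+* E')
    (hσ : ConstExtAlong k L F E' σ i) (P' : Place L E') :
    ∃ P : Place k F, ∀ f : F, P.Ge 0 f → P'.Ge 0 (i f) := by
  have hi : Function.Injective i := i.injective
  have hne : ∀ f : F, f ≠ 0 → i f ≠ 0 := fun f hf h => hf (hi (by rw [h, map_zero]))
  by_cases htr : ∀ f : F, f ≠ 0 → P'.ord (i f) = 0
  · obtain ⟨P⟩ := ZD k F hF
    refine ⟨P, fun f _ => ?_⟩
    by_cases hf : f = 0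
    · subst hf
      rw [map_zero]
      exact P'.ge_zero 0
    · exact Or.inr (htr f hf).ge
  · push Not at htr
    obtain ⟨f₀, hf₀, hf₀'⟩ := htr
    have hex : ∃ n : ℕ, 0 < n ∧ ∃ f : F, f ≠ 0 ∧ P'.ord (i f) = n := by
      rcases lt_or_gt_of_ne hf₀' with h | h
      · refine ⟨(-P'.ord (i f₀)).toNat, by omega, f₀⁻¹, inv_ne_zero hf₀, ?_⟩
        rw [map_inv₀, P'.ord_inv (hne f₀ hf₀)]
        omega
      · exact ⟨(P'.ord (i f₀)).toNat, by omega, f₀, hf₀, by omega⟩
    classical
    obtain ⟨he, t, ht, hte⟩ := Nat.find_spec hex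
    have hmin := fun n => Nat.find_min hex (m := n)
    generalize Nat.find hex = e at he hte hmin
    have hdiv : ∀ f : F, f ≠ 0 → (e : ℤ) ∣ P'.ord (i f) := by
      intro f hf
      by_contra hnd
      have h1 : 0 < P'.ord (i f) % e := by
        have := Int.emod_nonneg (P'.ord (i f)) (by omega : (e : ℤ) ≠ 0)
        rcases this.lt_or_eq with h | h
        · exact h
        · exact absurd (Int.dvd_of_emod_eq_zero h.symm) hnd
      have h2 : P'.ord (i f) % e < e := Int.emod_lt_of_pos _ (by omega)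
      refine hmin (P'.ord (i f) % e).toNat (by omega) ⟨by omega, f * (t ^ (P'.ord (i f) / e))⁻¹,
        mul_ne_zero hf (inv_ne_zero (zpow_ne_zero _ ht)), ?_⟩
      rw [map_mul, map_inv₀, map_zpow₀, P'.ord_mul _ _ (hne f hf) (inv_ne_zero (zpow_ne_zero _ (hne t ht))),
        P'.ord_inv (zpow_ne_zero _ (hne t ht)), P'.ord_zpow (hne t ht), hte]
      have h3 := Int.emod_add_mul_ediv (P'.ord (i f)) e
      rw [Int.toNat_of_nonneg h1.le]
      linarith [mul_comm (P'.ord (i f) / e) (e : ℤ)]
    have hq : ∀ f : F, f ≠ 0 → P'.ord (i f) = e * (P'.ord (i f) / e) := fun f hf =>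
      (Int.mul_ediv_cancel' (hdiv f hf)).symm
    have he0 : (0 : ℤ) < e := by omega
    let P : Place k F :=
      { ord := fun f => P'.ord (i f) / e
        ord_zero := by simp [P'.ord_zero]
        ord_mul := by
          intro a b ha hb
          rw [map_mul, P'.ord_mul _ _ (hne a ha) (hne b hb)]
          exact Int.add_ediv_of_dvd_left (hdiv a ha)
        ord_add := by
          intro a b ha hb hab
          have h1 := P'.ord_add (i a) (i b) (hne a ha) (hne b hb) (by
            rw [← map_add]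
            exact hne _ hab)
          rw [← map_add] at h1
          rcases min_le_iff.mp h1 with h2 | h2
          · exact (min_le_left _ _).trans (Int.ediv_le_ediv he0 h2)
          · exact (min_le_right _ _).trans (Int.ediv_le_ediv he0 h2)
        ord_const := by
          intro c hc
          rw [hσ.1 c, P'.ord_const (σ c) (by
            intro h
            exact hc (σ.injective (by rw [h, map_zero])))]
          simp
        exists_uniformizer := ⟨t, ht, by
          show P'.ord (i t) / e = 1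
          rw [hte]
          exact Int.ediv_self (by omega)⟩ }
    refine ⟨P, fun f hf => ?_⟩
    by_cases hf0 : f = 0
    · subst hf0
      rw [map_zero]
      exact P'.ge_zero 0
    · have h1 : 0 ≤ P'.ord (i f) / e := hf.le hf0
      refine Or.inr ?_
      rw [hq f hf0]
      positivity

/-- the differential of a regular function is regular -/
theorem reg_der (hE : IsFF L E') (D₁ : Derivation L E' E') (hD₁ : D₁ ≠ 0) (P' : Place L E') (z : E')
    (hz : P'.Ge 0 z) : P'.Ge (P'.ord (D₁ P'.unif)) (D₁ z) := by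
  obtain ⟨c, hc⟩ := aQV1 L E' hE P' z hz
  have h1 := (aQK5 L E' hE D₁ hD₁ P' P'.unif P'.unif_spec).2.2.1 1 (z - algebraMap L E' c) hc
  rw [map_sub, Derivation.map_algebraMap, sub_zero] at h1
  simpa using h1

theorem aNumber_le_one (hF : IsFF k F) (hE : IsFF L E') (σ : k →+* L) (i : F →+* E')
    (hσ : ConstExtAlong k L F E' σ i) (h1 : aNumber L E' = 1) : aNumber k F ≤ 1 := by
  obtain ⟨D₀, hD₀⟩ := QK1 k F hF
  obtain ⟨D₁, hD₁⟩ := QK1 L E' hE
  obtain ⟨c, hc, hder⟩ := der_ext hF σ i hσ D₀ hD₀ D₁ hD₁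
  obtain ⟨e₀, he₀, hr₀⟩ := FK k F hF D₀ hD₀
  obtain ⟨e₁, he₁, hr₁⟩ := FK L E' hE D₁ hD₁
  let T : KaehlerDifferential k F → KaehlerDifferential L E' := fun ω => e₁.symm (c * i (e₀ ω))
  have hTadd : ∀ a b, T (a + b) = T a + T b := by
    intro a b
    show e₁.symm (c * i (e₀ (a + b))) = e₁.symm (c * i (e₀ a)) + e₁.symm (c * i (e₀ b))
    rw [map_add, map_add, mul_add, map_add]
  have hek : ∀ (x : k) (ω : KaehlerDifferential k F), e₀ (x • ω) = x • e₀ ω := by
    intro x ω
    rw [← algebraMap_smul F x ω, map_smul, algebraMap_smul]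
  have heL : ∀ (x : L) (y : E'), e₁.symm (x • y) = x • e₁.symm y := by
    intro x y
    rw [← algebraMap_smul E' x y, map_smul, algebraMap_smul]
  have hTsmul : ∀ (x : k) ω, T (x • ω) = σ x • T ω := by
    intro x ω
    show e₁.symm (c * i (e₀ (x • ω))) = σ x • e₁.symm (c * i (e₀ ω))
    rw [hek, ← heL, Algebra.smul_def x (e₀ ω), i.map_mul, hσ.1, Algebra.smul_def (σ x)]
    congr 1
    ring
  have hTV : ∀ ω : KaehlerDifferential k F, ((∀ P : Place k F, RegAt P ω) ∧ ∃ h : F, ω = KaehlerDifferential.D k F h) →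
      ((∀ P : Place L E', RegAt P (T ω)) ∧ ∃ h : E', T ω = KaehlerDifferential.D L E' h) := by
    rintro ω ⟨hreg, h, rfl⟩
    have hT : T (KaehlerDifferential.D k F h) = KaehlerDifferential.D L E' (i h) := by
      show e₁.symm (c * i (e₀ (KaehlerDifferential.D k F h))) = _
      rw [he₀, ← hder, ← he₁, LinearEquiv.symm_apply_apply]
    refine ⟨fun P' => ?_, i h, hT⟩
    rw [hr₁ P', hT, he₁, hder]
    obtain ⟨P, hP⟩ := restrict hF σ i hσ P'
    obtain ⟨t, f, ht, hf, hω⟩ := hreg P
    have h3 : D₀ h = f * D₀ t := by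
      have := congrArg e₀ hω
      rwa [he₀, map_smul, he₀, smul_eq_mul] at this
    have h4 : c * i (D₀ h) = i f * D₁ (i t) := by
      rw [h3, map_mul, hder]
      ring
    rw [h4]
    have h5 : P'.Ge 0 (i f) := hP f hf
    have h6 : P'.Ge 0 (i t) := hP t (Or.inr (by rw [ht.2]; exact zero_le_one))
    have h7 := reg_der hE D₁ hD₁ P' (i t) h6
    simpa using h5.mul h7
  set S₀ := Submodule.span k {ω : KaehlerDifferential k F |
    (∀ P : Place k F, RegAt P ω) ∧ ∃ h : F, ω = KaehlerDifferential.D k F h} with hS₀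
  set S₁ := Submodule.span L {ω : KaehlerDifferential L E' |
    (∀ P : Place L E', RegAt P ω) ∧ ∃ h : E', ω = KaehlerDifferential.D L E' h} with hS₁
  have hTS : ∀ ω ∈ S₀, T ω ∈ S₁ := by
    intro ω hω
    induction hω using Submodule.span_induction with
    | mem x hx => exact Submodule.subset_span (hTV x hx)
    | zero =>
      have : T 0 = 0 := by
        show e₁.symm (c * i (e₀ 0)) = 0
        rw [map_zero, map_zero, mul_zero, map_zero]
      rw [this]
      exact S₁.zero_mem
    | add x y _ _ hx hy =>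
      rw [hTadd]
      exact S₁.add_mem hx hy
    | smul a x _ hx =>
      rw [hTsmul]
      exact S₁.smul_mem _ hx
  have hind : ∀ (n : ℕ) (v : Fin n → KaehlerDifferential k F), LinearIndependent k v →
      LinearIndependent L fun j => T (v j) := by
    intro n v hv
    have h2 : LinearIndependent k fun j => e₀ (v j) :=
      hv.map' (e₀.restrictScalars k).toLinearMap (LinearEquiv.ker _)
    have h3 := hσ.2.2 n _ h2
    have h4 : LinearIndependent L fun j => c * i (e₀ (v j)) := by
      refine h3.map' (LinearMap.mulLeft L c) ?_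
      rw [LinearMap.ker_eq_bot]
      intro a b hab
      exact mul_left_cancel₀ hc hab
    exact h4.map' (e₁.symm.restrictScalars L).toLinearMap (LinearEquiv.ker _)
  by_contra hcon
  have h2 : 2 ≤ Module.finrank k S₀ := by
    show 2 ≤ aNumber k F
    omega
  obtain ⟨w, hw⟩ := exists_linearIndependent_of_le_finrank h2
  have hw' : LinearIndependent k fun j => ((w j : S₀) : KaehlerDifferential k F) :=
    hw.map' S₀.subtype (Submodule.ker_subtype _)
  have h3 := hind 2 _ hw'
  have hfin : Module.finrank L S₁ = 1 := h1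
  haveI : Module.Finite L S₁ := Module.finite_of_finrank_pos (by omega)
  have h4 : LinearIndependent L fun j => (⟨T (w j), hTS _ (w j).2⟩ : S₁) := by
    refine LinearIndependent.of_comp S₁.subtype ?_
    exact h3
  have h5 := h4.fintype_card_le_finrank
  rw [hfin, Fintype.card_fin] at h5
  omega

end

end Pool.Agent.helper84.AN
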