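import Pool.Agent.helper48.AN.Assemble
import Pool.Agent.helper84.AN.Inv

/-!
# Generic curves of `p`-rank 0 have `a`-number 1
-/

set_option autoImplicit false

namespace Pool.Agent.helper84.AN

open Pool.Agent.helper53.AU
open _root_.AN

noncomputable section

/-- the `a`-number is at least 1 if the `p`-rank is 0 and `g ≥ 1` -/
theorem one_le_aNumber (p : ℕ) [Fact p.Prime] (k : Type) [Field k] [IsAlgClosed k] [CharP k p]
    (F₀ : Type) [Field F₀] [Algebra k F₀] (g : ℕ) (hg : 1 ≤ g) (hFF : IsFF k F₀)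
    (hgen : IsGenus k F₀ g) (hpr : PRankZero p k F₀) : 1 ≤ aNumber k F₀ := by
  obtain ⟨P₀⟩ := a_ZD k F₀ hFF
  obtain ⟨ι, hι⟩ := a_FA k F₀ hFF P₀
  obtain ⟨γ, a, hK, hreg⟩ := a_FS p k F₀ hFF g hgen P₀ ι hι
  have hnil := a_FG p k F₀ hFF P₀ ι hι g γ a hK hreg hpr
  have h1 := a_FH2 p k F₀ hFF P₀ ι hι g γ a hK hreg
  have h2 := a_ZR p k g (HW p γ a) hg hnil
  omega

/-- a smooth family of curves over `k[[t]]` with special fibre `F₀`, generic fibre `E` and geometric generic fibre `E'` of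
genus `g` and `p`-rank 0 -/
structure Family (p : ℕ) (k F₀ : Type) [Field k] [Field F₀] [Algebra k F₀] (g : ℕ)
    (E E' : Type) [Field E] [Algebra (LaurentSeries k) E] [Field E']
    [Algebra (AlgebraicClosure (LaurentSeries k)) E'] (j : E →+* E') : Prop where
  ff : IsFF (LaurentSeries k) E
  good : GoodReduction k F₀ E
  ext : IsConstExt (LaurentSeries k) (AlgebraicClosure (LaurentSeries k)) E E' j
  ff' : IsFF (AlgebraicClosure (LaurentSeries k)) E'
  genus : IsGenus (AlgebraicClosure (LaurentSeries k)) E' g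
  rank : PRankZero p (AlgebraicClosure (LaurentSeries k)) E'

theorem generic (p : ℕ) [Fact p.Prime] (k : Type) [Field k] [IsAlgClosed k] [CharP k p]
    (F₀ : Type) [Field F₀] [Algebra k F₀] (g : ℕ) (hg : 2 ≤ g) (hF₀ : IsFF k F₀)
    (hgenus : IsGenus k F₀ g) (hrank : PRankZero p k F₀)
    (hgeneric : ∀ (E : Type) [Field E] [Algebra (LaurentSeries k) E] (E' : Type) [Field E']
      [Algebra (AlgebraicClosure (LaurentSeries k)) E'] (j : E →+* E'), Family p k F₀ g E E' j →
      ∃ (σ : k →+* AlgebraicClosure (LaurentSeries k)) (i : F₀ →+* E'),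
        ConstExtAlong k (AlgebraicClosure (LaurentSeries k)) F₀ E' σ i) :
    aNumber k F₀ = 1 := by
  obtain ⟨E, iE, aE, E', iE', aE', j, h1, h2, h3, h4, h5, h6, h7⟩ := a_ZZ p k F₀ g hg hF₀ hgenus hrank
  obtain ⟨σ, i, hσ⟩ := hgeneric E E' j ⟨h1, h2, h3, h4, h5, h6⟩
  have h8 := aNumber_le_one hF₀ h4 σ i hσ h7
  have h9 := one_le_aNumber p k F₀ g (by omega) hF₀ hgenus hrank
  omega

end

end Pool.Agent.helper84.AN
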