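import Pool.Agent.helper84.AN.Def
import Pool.Agent.helper84.AN.Gen

/-!
# The definitions of `Def.lean` agree with those of the library
-/

set_option autoImplicit false

namespace Pool.Agent.helper84.GC

noncomputable section

variable {k F : Type} [Field k] [Field F] [Algebra k F]

theorem isFF_iff : IsFF k F ↔ Pool.Agent.helper53.AU.IsFF k F := Iff.rfl

/-- the places -/
def e (k F : Type) [Field k] [Field F] [Algebra k F] : Place k F ≃ Pool.Agent.helper53.AU.Place k F where
  toFun P := ⟨P.ord, P.ord_zero, P.ord_mul, P.ord_add, P.ord_const, by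
    obtain ⟨t, ht⟩ := P.ord_unif
    refine ⟨t, ?_, ht⟩
    rintro rfl
    rw [P.ord_zero] at ht
    exact zero_ne_one ht⟩
  invFun P := ⟨P.ord, P.ord_zero, P.ord_mul, P.ord_add, P.ord_const, by
    obtain ⟨t, -, ht⟩ := P.exists_uniformizer
    exact ⟨t, ht⟩⟩
  left_inv _ := rfl
  right_inv _ := rfl

theorem e_ord (P : Place k F) : (e k F P).ord = P.ord := rfl

theorem pRankZero_iff (p : ℕ) : PRankZero p k F ↔ AN.PRankZero p k F := by
  unfold PRankZero AN.PRankZero
  refine forall_congr' fun f => imp_congr_right fun _ => imp_congr_left ?_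
  rw [← (e k F).forall_congr_right]
  exact Iff.rfl

theorem regAt_iff (P : Place k F) (ω : KaehlerDifferential k F) : RegAt P ω ↔ AN.RegAt (e k F P) ω := by
  unfold RegAt AN.RegAt
  refine exists_congr fun t => exists_congr fun f => ?_
  refine and_congr ⟨fun h => ⟨?_, h⟩, fun h => h.2⟩ (and_congr ⟨fun h => Or.inr h, fun h => ?_⟩ Iff.rfl)
  · rintro rfl
    rw [P.ord_zero] at h
    exact zero_ne_one h
  · rcases h with rfl | h
    · rw [P.ord_zero]
    · exact h

theorem aNumber_eq : aNumber k F = AN.aNumber k F := by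
  unfold aNumber AN.aNumber
  have : {ω : KaehlerDifferential k F | (∀ P : Place k F, RegAt P ω) ∧
      ∃ h : F, ω = KaehlerDifferential.D k F h} = {ω : KaehlerDifferential k F |
      (∀ P : Pool.Agent.helper53.AU.Place k F, AN.RegAt P ω) ∧
      ∃ h : F, ω = KaehlerDifferential.D k F h} := by
    ext ω
    refine and_congr ?_ Iff.rfl
    rw [← (e k F).forall_congr_right]
    exact forall_congr' fun P => regAt_iff P ω
  rw [this]

theorem genus_val (D : Place k F →₀ ℤ) :
    (D.sum fun _ n => n) + 1 - (Module.finrank k (RR D) : ℤ) =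
      Pool.Agent.helper53.AU.degD (D.equivMapDomain (e k F)) + 1 -
        (Module.finrank k (Pool.Agent.helper53.AU.RR (D.equivMapDomain (e k F))) : ℤ) := by
  have h1 : Pool.Agent.helper53.AU.degD (D.equivMapDomain (e k F)) = D.sum fun _ n => n := by
    unfold Pool.Agent.helper53.AU.degD
    rw [Finsupp.sum_equivMapDomain]
  have h2 : RR D = Pool.Agent.helper53.AU.RR (D.equivMapDomain (e k F)) := by
    unfold RR
    rw [← Submodule.span_eq (Pool.Agent.helper53.AU.RR (D.equivMapDomain (e k F)))]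
    congr 1
    ext f
    show (f = 0 ∨ ∀ P : Place k F, -D P ≤ P.ord f) ↔
      (f = 0 ∨ ∀ P : Pool.Agent.helper53.AU.Place k F, -(D.equivMapDomain (e k F)) P ≤ P.ord f)
    refine or_congr Iff.rfl ?_
    rw [← (e k F).forall_congr_right]
    refine forall_congr' fun P => ?_
    rw [Finsupp.equivMapDomain_apply, Equiv.symm_apply_apply, e_ord]
  rw [h1, h2]

theorem isGenus_iff (g : ℕ) : IsGenus k F g ↔ Pool.Agent.helper53.AU.IsGenus k F g := by
  unfold IsGenus Pool.Agent.helper53.AU.IsGenus
  have : (Set.range fun D : Place k F →₀ ℤ => (D.sum fun _ n => n) + 1 - (Module.finrank k (RR D) : ℤ)) =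
      Set.range fun D : Pool.Agent.helper53.AU.Place k F →₀ ℤ => Pool.Agent.helper53.AU.degD D + 1 -
        (Module.finrank k (Pool.Agent.helper53.AU.RR D) : ℤ) := by
    ext x
    constructor
    · rintro ⟨D, rfl⟩
      exact ⟨D.equivMapDomain (e k F), (genus_val D).symm⟩
    · rintro ⟨D, rfl⟩
      refine ⟨D.equivMapDomain (e k F).symm, ?_⟩
      refine (genus_val _).trans ?_
      have : (D.equivMapDomain (e k F).symm).equivMapDomain (e k F) = D := by
        rw [← Finsupp.equivMapDomain_trans, Equiv.symm_trans_self, Finsupp.equivMapDomain_refl]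
      rw [this]
  rw [this]

theorem main (p : ℕ) [Fact p.Prime] (k : Type) [Field k] [IsAlgClosed k] [CharP k p]
    (F₀ : Type) [Field F₀] [Algebra k F₀] (g : ℕ) (hg : 2 ≤ g) (hF₀ : IsFF k F₀)
    (hgenus : IsGenus k F₀ g) (hrank : PRankZero p k F₀) :
    (IsGeneric p k F₀ g → aNumber k F₀ = 1) ∧
    ∃ (E : Type) (_ : Field E) (_ : Algebra (LaurentSeries k) E) (E' : Type) (_ : Field E')
      (_ : Algebra (AlgebraicClosure (LaurentSeries k)) E') (j : E →+* E'),
      IsFamily p k F₀ g E E' j ∧ aNumber (AlgebraicClosure (LaurentSeries k)) E' = 1 := by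
  rw [isGenus_iff] at hgenus
  rw [pRankZero_iff] at hrank
  have hfam : ∀ (E : Type) [Field E] [Algebra (LaurentSeries k) E] (E' : Type) [Field E']
      [Algebra (AlgebraicClosure (LaurentSeries k)) E'] (j : E →+* E'),
      AN.Family p k F₀ g E E' j → IsFamily p k F₀ g E E' j := by
    intro E _ _ E' _ _ j h
    exact ⟨h.ff, h.good, h.ext, h.ff', (isGenus_iff g).mpr h.genus, (pRankZero_iff p).mpr h.rank⟩
  refine ⟨fun h => ?_, ?_⟩
  · rw [aNumber_eq]
    refine AN.generic p k F₀ g hg hF₀ hgenus hrank ?_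
    intro E _ _ E' _ _ j hf
    exact h E E' j (hfam E E' j hf)
  · obtain ⟨E, iE, aE, E', iE', aE', j, h1, h2, h3, h4, h5, h6, h7⟩ :=
      _root_.AN.a_ZZ p k F₀ g hg hF₀ hgenus hrank
    exact ⟨E, iE, aE, E', iE', aE', j, hfam E E' j ⟨h1, h2, h3, h4, h5, h6⟩, by
      rw [aNumber_eq]
      exact h7⟩

end

end Pool.Agent.helper84.GC
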